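import Mathlib

set_option autoImplicit false

/-! Unit and rational distances with rational angles (MP_05df08_co, helper993). -/

namespace Pool.Agent.H993R3.RA

open Finset Classical

/-- root of unity -/
def IsRU (z : ℂ) : Prop := ∃ N : ℕ, 0 < N ∧ z ^ N = 1

/-- in a vector space V over ℚ: every p in P has at most D out-neighbours and at most D
in-neighbours (w.r.t. G) in direction x -/
def Adm {V : Type} [AddCommGroup V] [Module ℚ V] (P : Finset V) (D : ℕ) (G : Finset (V × V))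
    (x : V) : Prop :=
  ∀ p ∈ P, (G.filter (fun e => e.1 = p ∧ ∃ r : ℚ, e.2 - e.1 = r • x)).card ≤ D ∧
    (G.filter (fun e => e.2 = p ∧ ∃ r : ℚ, e.2 - e.1 = r • x)).card ≤ D

/-- all edges of G join points of P and have a positive rational multiple of an element of X as
difference -/
def Dir {V : Type} [AddCommGroup V] [Module ℚ V] (P : Finset V) (G : Finset (V × V))
    (X : Set V) : Prop :=
  ∀ e ∈ G, e.1 ∈ P ∧ e.2 ∈ P ∧ ∃ x ∈ X, ∃ r : ℚ, 0 < r ∧ e.2 - e.1 = r • x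

/-- IND: independent directions: at most D n log_2 n edges. -/
def S_IND : Prop := ∀ (V : Type) [AddCommGroup V] [Module ℚ V] (X : Set V),
  LinearIndependent ℚ (fun x : X => (x : V)) → ∀ (D : ℕ) (P : Finset V) (G : Finset (V × V)),
  Dir P G X → (∀ x ∈ X, Adm P D G x) →
  (G.card : ℝ) ≤ D * (P.card * Real.logb 2 P.card)

/-- no non-trivial rational relation with at most k terms -/
def BInd (k : ℕ) (X : Set ℂ) : Prop := ∀ (Y : Finset ℂ) (c : ℂ → ℚ), (∀ y ∈ Y, y ∈ X) →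
  Y.card ≤ k → ∑ y ∈ Y, (c y : ℂ) * y = 0 → ∀ y ∈ Y, c y = 0

/-- BND (given IND): no short relations suffice. -/
def S_BND : Prop := ∀ (X : Set ℂ) (k D : ℕ) (P : Finset ℂ) (G : Finset (ℂ × ℂ)), BInd k X →
  4 * Nat.log 2 P.card + 10 ≤ k → Dir P G X → (∀ x ∈ X, Adm P D G x) →
  (G.card : ℝ) ≤ 2 * D * (P.card * Real.logb 2 P.card)

/-- CONJ: Galois conjugation of a relation between N-th roots of unity. -/
def S_CONJ : Prop := ∀ (N : ℕ), 0 < N → ∀ (X : Finset ℂ) (c : ℂ → ℚ), (∀ x ∈ X, x ^ N = 1) →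
  ∑ x ∈ X, (c x : ℂ) * x = 0 → ∀ a : ℕ, a.Coprime N → ∑ x ∈ X, (c x : ℂ) * x ^ a = 0

/-- SPL (given CONJ): a relation with fewer than p terms splits into the cosets of mu_(N/p). -/
def S_SPL : Prop := ∀ (N p : ℕ), 0 < N → p.Prime → p ∣ N → ∀ (X : Finset ℂ) (c : ℂ → ℚ),
  X.card < p → (∀ x ∈ X, x ^ N = 1) → ∑ x ∈ X, (c x : ℂ) * x = 0 →
  ∀ t : ℂ, ∑ x ∈ X.filter (fun x => x ^ (N / p) = t), (c x : ℂ) * x = 0

/-- COS (given SPL): a relation with at most k terms splits into the cosets of mu_(N/m), if all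
primes dividing m are larger than k. -/
def S_COS : Prop := ∀ (k m N : ℕ), 0 < N → m ∣ N → (∀ p : ℕ, p.Prime → p ∣ m → k < p) →
  ∀ (X : Finset ℂ) (c : ℂ → ℚ), X.card ≤ k → (∀ x ∈ X, x ^ N = 1) →
  ∑ x ∈ X, (c x : ℂ) * x = 0 →
  ∀ t : ℂ, ∑ x ∈ X.filter (fun x => x ^ (N / m) = t), (c x : ℂ) * x = 0

/-- INT: phi(M) consecutive powers of a primitive M-th root of unity are independent. -/
def S_INT : Prop := ∀ (M : ℕ), 0 < M → ∀ ζ : ℂ, IsPrimitiveRoot ζ M → ∀ (s : ℕ) (c : ℕ → ℚ),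
  ∑ j ∈ Finset.range (Nat.totient M), (c j : ℂ) * ζ ^ (s + j) = 0 →
  ∀ j < Nat.totient M, c j = 0

/-- CLS (given COS, INT): the (Mm)-th roots of unity fall into few classes without relations of
at most k terms. -/
def S_CLS : Prop := ∀ (k M m : ℕ), 0 < M → 0 < m → (∀ p : ℕ, p.Prime → p ∣ m → k < p) →
  ∃ cl : ℂ → ℕ, (∀ x : ℂ, x ^ (M * m) = 1 → cl x * Nat.totient M < M) ∧
    ∀ i : ℕ, BInd k {x : ℂ | x ^ (M * m) = 1 ∧ cl x = i}

/-- MER: Mertens (library). -/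
def S_MER : Prop := ∃ C : ℝ, 0 < C ∧ ∀ k M : ℕ, 2 ≤ k → 0 < M →
  (∀ p : ℕ, p.Prime → p ∣ M → p ≤ k) → (M : ℝ) ≤ C * Real.log k * (Nat.totient M : ℝ)

/-- FAC: smooth times rough. -/
def S_FAC : Prop := ∀ k N : ℕ, 0 < N → ∃ M m : ℕ, N = M * m ∧ 0 < M ∧ 0 < m ∧
  (∀ p : ℕ, p.Prime → p ∣ M → p ≤ k) ∧ (∀ p : ℕ, p.Prime → p ∣ m → k < p)

/-- MAIN (given BND, CLS, MER, FAC). -/
def S_MAIN : Prop := ∃ C : ℝ, 0 < C ∧ ∀ (P : Finset ℂ) (D : ℕ) (G : Finset (ℂ × ℂ)),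
  2 ≤ P.card →
  (∀ e ∈ G, e.1 ∈ P ∧ e.2 ∈ P ∧ ∃ (r : ℚ) (ω : ℂ), r ≠ 0 ∧ IsRU ω ∧ e.2 - e.1 = r • ω) →
  (∀ ω : ℂ, IsRU ω → Adm P D G ω) →
  (G.card : ℝ) ≤ C * D * P.card * Real.log P.card * Real.log (2 + Real.log P.card)

/-- FIN1 (given MAIN): unit distances with rational angles. -/
def S_FIN1 : Prop := ∃ C : ℝ, 0 < C ∧ ∀ P : Finset ℂ, 2 ≤ P.card →
  (((P ×ˢ P).filter (fun e => IsRU (e.2 - e.1))).card : ℝ) ≤
    C * P.card * Real.log P.card * Real.log (2 + Real.log P.card)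

/-- FIN2 (given MAIN): rational distances with rational angles, no three points collinear. -/
def S_FIN2 : Prop := ∃ C : ℝ, 0 < C ∧ ∀ P : Finset ℂ, 2 ≤ P.card →
  (∀ p ∈ P, ∀ q ∈ P, ∀ s ∈ P, p ≠ q → p ≠ s → q ≠ s → ¬ Collinear ℝ ({p, q, s} : Set ℂ)) →
  (((P ×ˢ P).filter (fun e => e.1 ≠ e.2 ∧ ∃ (r : ℚ) (ω : ℂ), IsRU ω ∧ e.2 - e.1 = r • ω)).card : ℝ) ≤
    C * P.card * Real.log P.card * Real.log (2 + Real.log P.card)

end Pool.Agent.H993R3.RA
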