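import Pool.Agent.H993R3.RA.Defs

set_option autoImplicit false

/-! Task BND: no short relations suffice. -/

namespace Pool.Agent.H993R3.RA

open Finset Classical

/-- evaluation of formal combinations -/
noncomputable def BND_ev (X : Set ℂ) : (X →₀ ℚ) →ₗ[ℚ] ℂ :=
  Finsupp.linearCombination ℚ (fun x : X => (x : ℂ))

theorem BND_ev_single (X : Set ℂ) (x : X) (r : ℚ) :
    BND_ev X (Finsupp.single x r) = r • (x : ℂ) := by
  unfold BND_ev
  rw [Finsupp.linearCombination_single]

theorem BND_inj {X : Set ℂ} {k : ℕ} (hB : BInd k X) (f : X →₀ ℚ) (hf : f.support.card ≤ k)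
    (h0 : BND_ev X f = 0) : f = 0 := by
  have h1 := hB (f.support.map (Function.Embedding.subtype _))
    (fun y => if h : y ∈ X then f ⟨y, h⟩ else 0) (by
      intro y hy
      obtain ⟨x, _, rfl⟩ := Finset.mem_map.1 hy
      exact x.2) (by rw [Finset.card_map]; exact hf) (by
      rw [Finset.sum_map]
      rw [BND_ev, Finsupp.linearCombination_apply, Finsupp.sum] at h0
      rw [← h0]
      refine Finset.sum_congr rfl (fun x _ => ?_)
      simp [Rat.smul_def])
  ext x
  by_contra hx
  have hx' : x ∈ f.support := Finsupp.mem_support_iff.2 hx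
  have h2 := h1 x (Finset.mem_map.2 ⟨x, hx', rfl⟩)
  simp only [Subtype.coe_prop, dite_true, Subtype.coe_eta] at h2
  exact hx h2

/-- balls -/
noncomputable def BND_ball (G : Finset (ℂ × ℂ)) (P : Finset ℂ) (v : ℂ) : ℕ → Finset ℂ
  | 0 => {v}
  | (ρ + 1) => BND_ball G P v ρ ∪
      P.filter (fun p => ∃ q ∈ BND_ball G P v ρ, (p, q) ∈ G ∨ (q, p) ∈ G)

variable {G : Finset (ℂ × ℂ)} {P : Finset ℂ} {v : ℂ}

theorem BND_ball_succ (ρ : ℕ) : BND_ball G P v (ρ + 1) = BND_ball G P v ρ ∪
    P.filter (fun p => ∃ q ∈ BND_ball G P v ρ, (p, q) ∈ G ∨ (q, p) ∈ G) := rfl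

theorem BND_ball_sub (hv : v ∈ P) (ρ : ℕ) : BND_ball G P v ρ ⊆ P := by
  induction ρ with
  | zero =>
    intro p hp
    have : p = v := Finset.mem_singleton.1 hp
    rw [this]; exact hv
  | succ ρ ih =>
    rw [BND_ball_succ]
    exact Finset.union_subset ih (Finset.filter_subset _ _)

theorem BND_ball_v (ρ : ℕ) : v ∈ BND_ball G P v ρ := by
  induction ρ with
  | zero => exact Finset.mem_singleton_self v
  | succ ρ ih =>
    rw [BND_ball_succ]
    exact Finset.mem_union_left _ ih

theorem BND_growth (hv : v ∈ P) : ∃ ρ ≤ Nat.log 2 P.card,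
    (BND_ball G P v (ρ + 1)).card ≤ 2 * (BND_ball G P v ρ).card := by
  by_contra hcon
  push Not at hcon
  have h1 : ∀ ρ ≤ Nat.log 2 P.card + 1, 2 ^ ρ ≤ (BND_ball G P v ρ).card := by
    intro ρ
    induction ρ with
    | zero => intro _; simp [BND_ball]
    | succ ρ ih =>
      intro h
      have h2 := ih (by omega)
      have h3 := hcon ρ (by omega)
      rw [pow_succ]
      omega
  have h2 := h1 _ le_rfl
  have h3 := Finset.card_le_card (BND_ball_sub (G := G) hv (Nat.log 2 P.card + 1))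
  have h4 := Nat.lt_pow_succ_log_self (b := 2) (by norm_num) P.card
  rw [Nat.succ_eq_add_one] at h4
  omega

theorem BND_lift {X : Set ℂ} (hD : Dir P G X) (ρ : ℕ) : ∀ p ∈ BND_ball G P v ρ,
    ∃ f : X →₀ ℚ, f.support.card ≤ ρ ∧ BND_ev X f = p - v := by
  induction ρ with
  | zero =>
    intro p hp
    have : p = v := Finset.mem_singleton.1 hp
    exact ⟨0, by simp, by rw [this, map_zero, sub_self]⟩
  | succ ρ ih =>
    intro p hp
    rw [BND_ball_succ, Finset.mem_union, Finset.mem_filter] at hp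
    rcases hp with hp | ⟨_, q, hq, hpq | hqp⟩
    · obtain ⟨f, hf, hf'⟩ := ih p hp
      exact ⟨f, by omega, hf'⟩
    · obtain ⟨f, hf, hf'⟩ := ih q hq
      obtain ⟨_, _, x, hx, r, _, hr⟩ := hD _ hpq
      simp only at hr
      refine ⟨f - Finsupp.single ⟨x, hx⟩ r, ?_, ?_⟩
      · have h1 := (Finset.card_le_card (Finsupp.support_sub (f := f)
          (g := Finsupp.single (⟨x, hx⟩ : X) r))).trans (Finset.card_union_le _ _)
        have h2 : (Finsupp.single (⟨x, hx⟩ : X) r).support.card ≤ 1 :=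
          (Finset.card_le_card Finsupp.support_single_subset).trans (by simp)
        omega
      · rw [map_sub, hf', BND_ev_single, ← hr]
        ring
    · obtain ⟨f, hf, hf'⟩ := ih q hq
      obtain ⟨_, _, x, hx, r, _, hr⟩ := hD _ hqp
      simp only at hr
      refine ⟨f + Finsupp.single ⟨x, hx⟩ r, ?_, ?_⟩
      · have h1 := (Finset.card_le_card (Finsupp.support_add (g₁ := f)
          (g₂ := Finsupp.single (⟨x, hx⟩ : X) r))).trans (Finset.card_union_le _ _)
        have h2 : (Finsupp.single (⟨x, hx⟩ : X) r).support.card ≤ 1 :=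
          (Finset.card_le_card Finsupp.support_single_subset).trans (by simp)
        omega
      · rw [map_add, hf', BND_ev_single, ← hr]
        ring

theorem BND_logmono {a b : ℕ} (hab : a ≤ b) : Real.logb 2 a ≤ Real.logb 2 b := by
  rcases Nat.eq_zero_or_pos a with h | h
  · subst h
    rcases Nat.eq_zero_or_pos b with hb | hb
    · subst hb; exact le_rfl
    · rw [Nat.cast_zero, Real.logb_zero]
      exact Real.logb_nonneg (by norm_num) (by exact_mod_cast hb)
  · exact Real.logb_le_logb_of_le (by norm_num) (by exact_mod_cast h) (by exact_mod_cast hab)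

theorem BND_mf {α : Type} {p : α → Prop} {inst : DecidablePred p} {s : Finset α} {a : α}
    (h : a ∈ @Finset.filter α p inst s) : a ∈ s ∧ p a := Finset.mem_filter.1 h

/-- edges inside a ball -/
theorem BND_inner (h : S_IND) {X : Set ℂ} {k D : ℕ} (hB : BInd k X) (hD : Dir P G X)
    (hA : ∀ x ∈ X, Adm P D G x) (L : ℕ) (hk : 2 * L + 1 ≤ k) (hsub : BND_ball G P v L ⊆ P) :
    ((G.filter (fun e => e.1 ∈ BND_ball G P v L ∧ e.2 ∈ BND_ball G P v L)).card : ℝ) ≤
      D * ((BND_ball G P v L).card * Real.logb 2 (BND_ball G P v L).card) := by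
  set B := BND_ball G P v L with hBdef
  have hex : ∀ p : ℂ, ∃ f : X →₀ ℚ, p ∈ B → f.support.card ≤ L ∧ BND_ev X f = p - v := by
    intro p
    by_cases hp : p ∈ B
    · obtain ⟨f, h1, h2⟩ := BND_lift hD L p hp
      exact ⟨f, fun _ => ⟨h1, h2⟩⟩
    · exact ⟨0, fun h => absurd h hp⟩
  choose F hF using hex
  have hFinj : ∀ p ∈ B, ∀ q ∈ B, F p = F q → p = q := by
    intro p hp q hq hpq
    have h1 := (hF p hp).2
    rw [hpq, (hF q hq).2] at h1
    exact (sub_left_injective h1).symm
  set Gi := G.filter (fun e => e.1 ∈ B ∧ e.2 ∈ B) with hGi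
  have hGimem : ∀ e, e ∈ Gi ↔ e ∈ G ∧ e.1 ∈ B ∧ e.2 ∈ B := fun e => by
    rw [hGi, Finset.mem_filter]
  have hev : ∀ e ∈ Gi, BND_ev X (F e.2 - F e.1) = e.2 - e.1 := by
    intro e he
    obtain ⟨_, h1, h2⟩ := (hGimem e).1 he
    rw [map_sub, (hF _ h1).2, (hF _ h2).2]
    ring
  have hedge : ∀ e ∈ Gi, ∀ (x : X) (r : ℚ), e.2 - e.1 = r • (x : ℂ) →
      F e.2 - F e.1 = r • Finsupp.single x (1 : ℚ) := by
    intro e he x r hr
    obtain ⟨_, h1, h2⟩ := (hGimem e).1 he
    have h3 : F e.2 - F e.1 - Finsupp.single x r = 0 := by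
      apply BND_inj hB
      · have a1 := (Finset.card_le_card (Finsupp.support_sub (f := F e.2 - F e.1)
          (g := Finsupp.single x r))).trans (Finset.card_union_le _ _)
        have a2 := (Finset.card_le_card (Finsupp.support_sub (f := F e.2)
          (g := F e.1))).trans (Finset.card_union_le _ _)
        have a3 : (Finsupp.single x r).support.card ≤ 1 :=
          (Finset.card_le_card Finsupp.support_single_subset).trans (by simp)
        have a4 := (hF _ h1).1
        have a5 := (hF _ h2).1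
        omega
      · rw [map_sub, hev e he, BND_ev_single, hr, sub_self]
    rw [sub_eq_zero.1 h3, Finsupp.smul_single, smul_eq_mul, mul_one]
  -- apply IND
  have hind := h (X →₀ ℚ) (Set.range (fun x : X => Finsupp.single x (1 : ℚ))) (by
      have h1 : LinearIndependent ℚ (fun x : X => Finsupp.single x (1 : ℚ)) := by
        have := (Finsupp.basisSingleOne (R := ℚ) (ι := X)).linearIndependent
        simpa [Finsupp.coe_basisSingleOne] using this
      exact h1.linearIndepOn_id) D (B.image F) (Gi.image (fun e => (F e.1, F e.2))) (by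
      intro e' he'
      obtain ⟨e, he, rfl⟩ := Finset.mem_image.1 he'
      obtain ⟨h0, h1, h2⟩ := (hGimem e).1 he
      obtain ⟨_, _, x, hx, r, hr0, hr⟩ := hD e h0
      exact ⟨Finset.mem_image_of_mem _ h1, Finset.mem_image_of_mem _ h2,
        Finsupp.single ⟨x, hx⟩ 1, ⟨⟨x, hx⟩, rfl⟩, r, hr0, hedge e he ⟨x, hx⟩ r hr⟩) (by
      rintro _ ⟨x, rfl⟩ p' hp'
      obtain ⟨p, hp, rfl⟩ := Finset.mem_image.1 hp'
      obtain ⟨hA1, hA2⟩ := hA x x.2 p (hsub hp)
      constructor
      · refine le_trans (Finset.card_le_card (t := (G.filter (fun e => e.1 = p ∧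
          ∃ r : ℚ, e.2 - e.1 = r • (x : ℂ))).image (fun e => (F e.1, F e.2))) ?_)
          (Finset.card_image_le.trans hA1)
        intro e' he'
        obtain ⟨he', h1, r, h2⟩ := BND_mf he'
        obtain ⟨e, he, rfl⟩ := Finset.mem_image.1 he'
        obtain ⟨h0, h3, h4⟩ := (hGimem e).1 he
        refine Finset.mem_image.2 ⟨e, Finset.mem_filter.2 ⟨h0, hFinj _ h3 _ hp h1, r, ?_⟩, rfl⟩
        rw [← hev e he]
        simp only at h2
        rw [h2, map_smul, BND_ev_single, one_smul]
      · refine le_trans (Finset.card_le_card (t := (G.filter (fun e => e.2 = p ∧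
          ∃ r : ℚ, e.2 - e.1 = r • (x : ℂ))).image (fun e => (F e.1, F e.2))) ?_)
          (Finset.card_image_le.trans hA2)
        intro e' he'
        obtain ⟨he', h1, r, h2⟩ := BND_mf he'
        obtain ⟨e, he, rfl⟩ := Finset.mem_image.1 he'
        obtain ⟨h0, h3, h4⟩ := (hGimem e).1 he
        refine Finset.mem_image.2 ⟨e, Finset.mem_filter.2 ⟨h0, hFinj _ h4 _ hp h1, r, ?_⟩, rfl⟩
        rw [← hev e he]
        simp only at h2
        rw [h2, map_smul, BND_ev_single, one_smul])
  have hc1 : (Gi.image (fun e => (F e.1, F e.2))).card = Gi.card := by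
    refine Finset.card_image_of_injOn ?_
    intro e he e' he' hee
    obtain ⟨_, h1, h2⟩ := (hGimem e).1 he
    obtain ⟨_, h3, h4⟩ := (hGimem e').1 he'
    simp only [Prod.mk.injEq] at hee
    exact Prod.ext (hFinj _ h1 _ h3 hee.1) (hFinj _ h2 _ h4 hee.2)
  have hc2 : (B.image F).card = B.card :=
    Finset.card_image_of_injOn (fun p hp q hq hpq => hFinj p hp q hq hpq)
  rw [hc1, hc2] at hind
  exact hind

theorem BND_ok (h : S_IND) : S_BND := by
  intro X k D P
  induction hn : P.card using Nat.strong_induction_on generalizing P with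
  | _ n ih =>
  intro G hB hk hD hA
  subst hn
  rcases P.eq_empty_or_nonempty with hP | ⟨v, hv⟩
  · have hG : G = ∅ := by
      rw [Finset.eq_empty_iff_forall_notMem]
      intro e he
      have := (hD e he).1
      rw [hP] at this
      exact absurd this (Finset.notMem_empty _)
    rw [hG, hP]
    simp
  obtain ⟨ρ, hρ, hgr⟩ := BND_growth (G := G) hv
  have hsub1 : BND_ball G P v (ρ + 1) ⊆ P := BND_ball_sub hv (ρ + 1)
  have hsub0 : BND_ball G P v ρ ⊆ P := BND_ball_sub hv ρ
  have hin := BND_inner (v := v) h hB hD hA (ρ + 1) (by omega) hsub1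
  set B0 := BND_ball G P v ρ with hB0
  set B1 := BND_ball G P v (ρ + 1) with hB1
  have h01 : B0 ⊆ B1 := by
    rw [hB1, BND_ball_succ]
    exact Finset.subset_union_left
  have hvB : v ∈ B0 := BND_ball_v ρ
  have hcard : (P \ B0).card + B0.card = P.card := Finset.card_sdiff_add_card_eq_card hsub0
  have hB0pos : 0 < B0.card := Finset.card_pos.2 ⟨v, hvB⟩
  have hrest := ih (P \ B0).card (by omega) (P \ B0) rfl
    (G.filter (fun e => e.1 ∉ B0 ∧ e.2 ∉ B0)) hB (by
      have := Nat.log_mono_right (b := 2) (show (P \ B0).card ≤ P.card by omega)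
      omega) (by
      intro e he
      rw [Finset.mem_filter] at he
      obtain ⟨h1, h2, h3⟩ := hD e he.1
      exact ⟨Finset.mem_sdiff.2 ⟨h1, he.2.1⟩, Finset.mem_sdiff.2 ⟨h2, he.2.2⟩, h3⟩) (by
      intro x hx p hp
      obtain ⟨h1, h2⟩ := hA x hx p (Finset.mem_sdiff.1 hp).1
      exact ⟨(Finset.card_le_card (Finset.filter_subset_filter _
        (Finset.filter_subset _ _))).trans h1, (Finset.card_le_card
        (Finset.filter_subset_filter _ (Finset.filter_subset _ _))).trans h2⟩)
  have hcover : G.card ≤ (G.filter (fun e => e.1 ∉ B0 ∧ e.2 ∉ B0)).card +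
      (G.filter (fun e => e.1 ∈ B1 ∧ e.2 ∈ B1)).card := by
    refine le_trans (Finset.card_le_card ?_) (Finset.card_union_le _ _)
    intro e he
    rw [Finset.mem_union, Finset.mem_filter, Finset.mem_filter]
    obtain ⟨h1, h2, _⟩ := hD e he
    by_cases ha : e.1 ∈ B0
    · right
      refine ⟨he, h01 ha, ?_⟩
      rw [hB1, BND_ball_succ, Finset.mem_union, Finset.mem_filter]
      exact Or.inr ⟨h2, e.1, ha, Or.inr he⟩
    · by_cases hb : e.2 ∈ B0
      · right
        refine ⟨he, ?_, h01 hb⟩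
        rw [hB1, BND_ball_succ, Finset.mem_union, Finset.mem_filter]
        exact Or.inr ⟨h1, e.2, hb, Or.inl he⟩
      · left
        exact ⟨he, ha, hb⟩
  -- numerics
  have hD0 : (0 : ℝ) ≤ D := Nat.cast_nonneg D
  have hlogP : 0 ≤ Real.logb 2 (P.card : ℝ) := by
    refine Real.logb_nonneg (by norm_num) ?_
    have : 1 ≤ P.card := by omega
    exact_mod_cast this
  have n1 : Real.logb 2 (B1.card : ℝ) ≤ Real.logb 2 (P.card : ℝ) :=
    BND_logmono (Finset.card_le_card hsub1)
  have n2 : Real.logb 2 ((P \ B0).card : ℝ) ≤ Real.logb 2 (P.card : ℝ) :=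
    BND_logmono (by omega)
  have n3 : (B1.card : ℝ) ≤ 2 * B0.card := by exact_mod_cast hgr
  have n4 : (B1.card : ℝ) * Real.logb 2 B1.card ≤ 2 * B0.card * Real.logb 2 P.card :=
    (mul_le_mul_of_nonneg_left n1 (Nat.cast_nonneg _)).trans
      (mul_le_mul_of_nonneg_right n3 hlogP)
  have n5 : ((P \ B0).card : ℝ) * Real.logb 2 (P \ B0).card ≤
      (P \ B0).card * Real.logb 2 P.card := mul_le_mul_of_nonneg_left n2 (Nat.cast_nonneg _)
  have n6 : ((P \ B0).card : ℝ) + B0.card = P.card := by exact_mod_cast hcard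
  have n7 : (G.card : ℝ) ≤ ((G.filter (fun e => e.1 ∉ B0 ∧ e.2 ∉ B0)).card : ℝ) +
      ((G.filter (fun e => e.1 ∈ B1 ∧ e.2 ∈ B1)).card : ℝ) := by exact_mod_cast hcover
  calc (G.card : ℝ) ≤ 2 * D * ((P \ B0).card * Real.logb 2 (P \ B0).card) +
        D * (B1.card * Real.logb 2 B1.card) := by linarith
    _ ≤ 2 * D * ((P \ B0).card * Real.logb 2 P.card) +
        D * (2 * B0.card * Real.logb 2 P.card) := by
        gcongr
    _ = 2 * D * ((((P \ B0).card : ℝ) + B0.card) * Real.logb 2 P.card) := by ring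
    _ = 2 * D * (P.card * Real.logb 2 P.card) := by rw [n6]

end Pool.Agent.H993R3.RA
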