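import Pool.Agent.H993R3.RA.Defs

set_option autoImplicit false

namespace Pool.Agent.H993R3.RA

open Finset Classical

theorem CLS_ok (h1 : S_COS) (h2 : S_INT) : S_CLS := by
  intro k M m hM hm hp
  have hNZ : NeZero M := ⟨hM.ne'⟩
  have hMm : M * m ≠ 0 := Nat.mul_ne_zero hM.ne' hm.ne'
  obtain ⟨ζ, hζ⟩ : ∃ ζ : ℂ, IsPrimitiveRoot ζ M := ⟨_, Complex.isPrimitiveRoot_exp M hM.ne'⟩
  have hφ : 0 < Nat.totient M := Nat.totient_pos.2 hM
  -- base points
  have hb : ∀ t : ℂ, ∃ β : ℂ, (∃ x : ℂ, x ^ (M * m) = 1 ∧ x ^ M = t) →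
      β ^ (M * m) = 1 ∧ β ^ M = t := by
    intro t
    by_cases h : ∃ x : ℂ, x ^ (M * m) = 1 ∧ x ^ M = t
    · obtain ⟨x, hx⟩ := h
      exact ⟨x, fun _ => hx⟩
    · exact ⟨1, fun h' => absurd h' h⟩
  choose b hb using hb
  have hb0 : ∀ x : ℂ, x ^ (M * m) = 1 → b (x ^ M) ≠ 0 := by
    intro x h h0
    have hb1 := (hb (x ^ M) ⟨x, h, rfl⟩).1
    rw [h0, zero_pow hMm] at hb1
    exact zero_ne_one hb1
  have hj : ∀ x : ℂ, ∃ j : ℕ, x ^ (M * m) = 1 → j < M ∧ ζ ^ j * b (x ^ M) = x := by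
    intro x
    by_cases h : x ^ (M * m) = 1
    · obtain ⟨hb1, hb2⟩ := hb (x ^ M) ⟨x, h, rfl⟩
      have h3 : (x / b (x ^ M)) ^ M = 1 := by
        rw [div_pow, hb2, div_self]
        intro h0
        have h00 : x = 0 := (pow_eq_zero_iff hM.ne').1 h0
        rw [h00, zero_pow hMm] at h
        exact zero_ne_one h
      obtain ⟨j, hj, hj'⟩ := hζ.eq_pow_of_pow_eq_one h3
      exact ⟨j, fun _ => ⟨hj, by rw [hj']; exact div_mul_cancel₀ x (hb0 x h)⟩⟩
    · exact ⟨0, fun h' => absurd h' h⟩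
  choose jj hjj using hj
  refine ⟨fun x => jj x / Nat.totient M, ?_, ?_⟩
  · intro x hx
    exact lt_of_le_of_lt (Nat.div_mul_le_self _ _) (hjj x hx).1
  · intro i Y c hY hcard hsum y0 hy0
    have hcos := h1 k m (M * m) (Nat.pos_of_ne_zero hMm) (Dvd.intro_left M rfl) hp Y c hcard
      (fun x hx => (hY x hx).1) hsum (y0 ^ M)
    rw [Nat.mul_div_cancel M hm] at hcos
    obtain ⟨Y', hY'⟩ : ∃ Y', Y' = Y.filter (fun x => x ^ M = y0 ^ M) := ⟨_, rfl⟩
    have hmem : ∀ y ∈ Y', y ∈ Y ∧ y ^ M = y0 ^ M := by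
      intro y hy
      rw [hY'] at hy
      exact Finset.mem_filter.1 hy
    have hsum' : ∑ x ∈ Y', (c x : ℂ) * x = 0 := by
      rw [hY']
      convert hcos
    have hy0' : y0 ∈ Y' := by
      rw [hY']
      exact Finset.mem_filter.2 ⟨hy0, rfl⟩
    obtain ⟨β, hβ⟩ : ∃ β, β = b (y0 ^ M) := ⟨_, rfl⟩
    have hβ0 : β ≠ 0 := by
      rw [hβ]
      exact hb0 y0 (hY y0 hy0).1
    obtain ⟨φ, hφd⟩ : ∃ φ, φ = Nat.totient M := ⟨_, rfl⟩
    rw [← hφd] at hφ
    have hrep : ∀ y ∈ Y', ζ ^ (i * φ + jj y % φ) * β = y := by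
      intro y hy
      obtain ⟨hyY, hyM⟩ := hmem y hy
      obtain ⟨hyr, hyc⟩ := hY y hyY
      have h3 := (hjj y hyr).2
      rw [hyM, ← hβ] at h3
      have h4 : i * φ + jj y % φ = jj y := by
        have h5 := Nat.div_add_mod (jj y) φ
        have h6 : jj y / φ = i := by rw [hφd]; exact hyc
        rw [h6, Nat.mul_comm] at h5
        exact h5
      rw [h4]
      exact h3
    have hinj : ∀ y ∈ Y', jj y % φ = jj y0 % φ → y = y0 := by
      intro y hy h
      rw [← hrep y hy, ← hrep y0 hy0', h]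
    have hlt : ∀ y : ℂ, jj y % φ < φ := fun y => Nat.mod_lt _ hφ
    have hint := h2 M hM ζ hζ (i * φ) (fun l => ∑ y ∈ Y', if jj y % φ = l then c y else 0) ?_
      (jj y0 % φ) (by rw [← hφd]; exact hlt y0)
    · have h7 : ∑ y ∈ Y', (if jj y % φ = jj y0 % φ then c y else 0) = c y0 := by
        rw [Finset.sum_eq_single y0]
        · rw [if_pos rfl]
        · intro y hy hne
          rw [if_neg]
          intro h
          exact hne (hinj y hy h)
        · intro h
          exact absurd hy0' h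
      rw [← h7]
      exact hint
    · rw [← hφd]
      have h8 : ∀ l ∈ Finset.range φ,
          (((∑ y ∈ Y', if jj y % φ = l then c y else 0 : ℚ)) : ℂ) * ζ ^ (i * φ + l) =
          ∑ y ∈ Y', if jj y % φ = l then (c y : ℂ) * ζ ^ (i * φ + jj y % φ) else 0 := by
        intro l _
        rw [Rat.cast_sum, Finset.sum_mul]
        apply Finset.sum_congr rfl
        intro y _
        by_cases h : jj y % φ = l
        · rw [if_pos h, if_pos h, h]
        · rw [if_neg h, if_neg h, Rat.cast_zero, zero_mul]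
      rw [Finset.sum_congr rfl h8, Finset.sum_comm]
      have h9 : ∀ y ∈ Y', (∑ l ∈ Finset.range φ,
          if jj y % φ = l then (c y : ℂ) * ζ ^ (i * φ + jj y % φ) else 0) =
          (c y : ℂ) * y * β⁻¹ := by
        intro y hy
        rw [Finset.sum_ite_eq, if_pos (Finset.mem_range.2 (hlt y))]
        have h10 := hrep y hy
        rw [eq_mul_inv_iff_mul_eq₀ hβ0, mul_assoc, h10]
      rw [Finset.sum_congr rfl h9, ← Finset.sum_mul, hsum', zero_mul]

end Pool.Agent.H993R3.RA
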