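import Pool.Agent.H993R3.RA.Defs

set_option autoImplicit false

namespace Pool.Agent.H993R3.RA

open Finset Classical

theorem CONJ_ok : S_CONJ := by
  intro N hN X c hX hrel a ha
  obtain ⟨ζ, hζ⟩ : ∃ ζ : ℂ, IsPrimitiveRoot ζ N := ⟨_, Complex.isPrimitiveRoot_exp N hN.ne'⟩
  have : NeZero N := ⟨hN.ne'⟩
  obtain ⟨j, hj⟩ : ∃ j : ℂ → ℕ, ∀ x ∈ X, ζ ^ j x = x := by
    have h1 : ∀ x : ℂ, ∃ i : ℕ, x ∈ X → ζ ^ i = x := by
      intro x
      by_cases hx : x ∈ X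
      · obtain ⟨i, _, hi⟩ := hζ.eq_pow_of_pow_eq_one (hX x hx)
        exact ⟨i, fun _ => hi⟩
      · exact ⟨0, fun h => absurd h hx⟩
    choose j hj using h1
    exact ⟨j, fun x hx => hj x hx⟩
  obtain ⟨f, hf⟩ : ∃ f : Polynomial ℚ, f = ∑ x ∈ X, Polynomial.C (c x) * Polynomial.X ^ (j x) :=
    ⟨_, rfl⟩
  have hev : ∀ z : ℂ, Polynomial.aeval z f = ∑ x ∈ X, (c x : ℂ) * z ^ (j x) := by
    intro z
    rw [hf, map_sum]
    apply Finset.sum_congr rfl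
    intro x _
    rw [map_mul, Polynomial.aeval_C, map_pow, Polynomial.aeval_X]
    rfl
  have h0 : Polynomial.aeval ζ f = 0 := by
    rw [hev, ← hrel]
    apply Finset.sum_congr rfl
    intro x hx
    rw [hj x hx]
  have hd := minpoly.dvd ℚ ζ h0
  rw [← Polynomial.cyclotomic_eq_minpoly_rat hζ hN] at hd
  have hζa : IsPrimitiveRoot (ζ ^ a) N := hζ.pow_of_coprime a ha
  rw [Polynomial.cyclotomic_eq_minpoly_rat hζa hN] at hd
  obtain ⟨g, hg⟩ := hd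
  have h1 : Polynomial.aeval (ζ ^ a) f = 0 := by
    rw [hg, map_mul, minpoly.aeval, zero_mul]
  rw [hev] at h1
  rw [← h1]
  apply Finset.sum_congr rfl
  intro x hx
  rw [← pow_mul, mul_comm a, pow_mul, hj x hx]

end Pool.Agent.H993R3.RA
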