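import Pool.Agent.H993R3.RA.Defs

set_option autoImplicit false

namespace Pool.Agent.H993R3.RA

open Finset Classical

theorem COS_aux (h : S_SPL) (k : ℕ) : ∀ (m : ℕ), ∀ (N : ℕ), 0 < N → m ∣ N →
    (∀ p : ℕ, p.Prime → p ∣ m → k < p) → ∀ (X : Finset ℂ) (c : ℂ → ℚ), X.card ≤ k →
    (∀ x ∈ X, x ^ N = 1) → ∑ x ∈ X, (c x : ℂ) * x = 0 →
    ∀ t : ℂ, ∑ x ∈ X.filter (fun x => x ^ (N / m) = t), (c x : ℂ) * x = 0 := by
  intro m
  induction m using Nat.strong_induction_on with
  | _ m ih =>
    intro N hN hmN hpk X c hcard hX hsum t
    have hm0 : 0 < m := Nat.pos_of_dvd_of_pos hmN hN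
    rcases Nat.lt_or_ge 1 m with hm1 | hm1
    · -- `m > 1`
      obtain ⟨p, hp, m', hm'⟩ : ∃ p : ℕ, p.Prime ∧ ∃ m', m = p * m' :=
        ⟨m.minFac, Nat.minFac_prime (by omega), m.minFac_dvd⟩
      have hpm : p ∣ m := ⟨m', hm'⟩
      have hkp : k < p := hpk p hp hpm
      have hm'0 : 0 < m' := by
        rcases Nat.eq_zero_or_pos m' with h0 | h0
        · rw [h0, mul_zero] at hm'
          omega
        · exact h0
      obtain ⟨M, hM⟩ := hmN
      have hNM : N = p * (m' * M) := by rw [hM, hm']; ring
      have hM0 : 0 < M := by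
        rcases Nat.eq_zero_or_pos M with h0 | h0
        · rw [h0, mul_zero] at hM
          omega
        · exact h0
      have hq : N / p = m' * M := by
        rw [hNM]
        exact Nat.mul_div_cancel_left _ hp.pos
      have hNm : N / m = M := by
        rw [hM]
        exact Nat.mul_div_cancel_left _ hm0
      have hqm : (m' * M) / m' = M := Nat.mul_div_cancel_left _ hm'0
      rw [hNm]
      by_cases hex : ∃ x0 ∈ X, x0 ^ M = t
      · obtain ⟨x0, hx0X, hx0⟩ := hex
        have hx00 : x0 ≠ 0 := by
          intro h0
          have h1 := hX x0 hx0X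
          rw [h0, zero_pow (by omega)] at h1
          exact zero_ne_one h1
        have hspl := h N p hN hp ⟨m' * M, hNM⟩ X c (lt_of_le_of_lt hcard hkp) hX hsum
          (x0 ^ (m' * M))
        rw [hq] at hspl
        obtain ⟨X1, hX1⟩ : ∃ X1 : Finset ℂ, X1 = X.filter (fun x => x ^ (m' * M) = x0 ^ (m' * M)) :=
          ⟨_, rfl⟩
        rw [← hX1] at hspl
        have hinj : Function.Injective (fun x : ℂ => x / x0) := by
          intro a b hab
          simp only at hab
          exact (div_left_inj' hx00).1 hab
        have hY := ih m' (by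
            rw [hm']
            have := hp.two_le
            nlinarith) (m' * M) (Nat.mul_pos hm'0 hM0) ⟨M, rfl⟩
          (fun r hr hrm => hpk r hr (by rw [hm']; exact Dvd.dvd.mul_left hrm p))
          (X1.image (fun x => x / x0)) (fun y => c (y * x0))
          ((Finset.card_image_le.trans (by
            rw [hX1]
            exact Finset.card_filter_le _ _)).trans hcard)
          (by
            intro y hy
            obtain ⟨x, hx, rfl⟩ := Finset.mem_image.1 hy
            rw [hX1, Finset.mem_filter] at hx
            rw [div_pow, hx.2, div_self (pow_ne_zero _ hx00)])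
          (by
            rw [Finset.sum_image (fun a _ b _ hab => hinj hab)]
            have h2 : ∀ x ∈ X1, ((c (x / x0 * x0) : ℚ) : ℂ) * (x / x0) =
                ((c x : ℂ) * x) * x0⁻¹ := by
              intro x _
              rw [div_mul_cancel₀ x hx00, div_eq_mul_inv]
              ring
            rw [Finset.sum_congr rfl h2, ← Finset.sum_mul, hspl, zero_mul]) 1
        rw [hqm, Finset.filter_image, Finset.sum_image (fun a _ b _ hab => hinj hab)] at hY
        have h3 : X.filter (fun x => x ^ M = t) = X1.filter (fun x => (x / x0) ^ M = 1) := by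
          ext x
          simp only [hX1, Finset.mem_filter]
          constructor
          · rintro ⟨hxX, hxt⟩
            have h4 : x ^ M = x0 ^ M := hxt.trans hx0.symm
            refine ⟨⟨hxX, ?_⟩, ?_⟩
            · rw [mul_comm m' M, pow_mul, pow_mul, h4]
            · rw [div_pow, h4, div_self (pow_ne_zero _ hx00)]
          · rintro ⟨⟨hxX, -⟩, hx1⟩
            refine ⟨hxX, ?_⟩
            rw [div_pow, div_eq_one_iff_eq (pow_ne_zero _ hx00)] at hx1
            exact hx1.trans hx0
        rw [h3]
        have h5 : ∀ x ∈ X1.filter (fun x => (x / x0) ^ M = 1), (c x : ℂ) * x =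
            ((c (x / x0 * x0) : ℚ) : ℂ) * (x / x0) * x0 := by
          intro x _
          rw [div_mul_cancel₀ x hx00, mul_assoc, div_mul_cancel₀ x hx00]
        rw [Finset.sum_congr rfl h5, ← Finset.sum_mul, hY, zero_mul]
      · have h1 : X.filter (fun x => x ^ M = t) = ∅ := by
          rw [Finset.filter_eq_empty_iff]
          intro x hx hxt
          exact hex ⟨x, hx, hxt⟩
        rw [h1, Finset.sum_empty]
    · -- `m = 1`
      have hm : m = 1 := by omega
      subst hm
      rw [Nat.div_one]
      by_cases ht : t = 1
      · have h1 : X.filter (fun x => x ^ N = t) = X := by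
          rw [Finset.filter_eq_self]
          intro x hx
          rw [hX x hx, ht]
        rw [h1, hsum]
      · have h1 : X.filter (fun x => x ^ N = t) = ∅ := by
          rw [Finset.filter_eq_empty_iff]
          intro x hx hxt
          exact ht (hxt.symm.trans (hX x hx))
        rw [h1, Finset.sum_empty]

theorem COS_ok (h : S_SPL) : S_COS := by
  intro k m N hN hmN hpk X c hcard hX hsum t
  exact COS_aux h k m N hN hmN hpk X c hcard hX hsum t

end Pool.Agent.H993R3.RA
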