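import Pool.Agent.H993R3.RA.Defs

set_option autoImplicit false

/-! FAC: every positive integer is a smooth number times a rough number (helper334). -/

namespace Pool.Agent.H993R3.RA

open Finset Classical

theorem FAC_ok : S_FAC := by
  intro k N
  induction N using Nat.strong_induction_on with
  | _ N ih =>
    intro hN
    by_cases h1 : N = 1
    · refine ⟨1, 1, by omega, one_pos, one_pos, ?_, ?_⟩
      · intro p hp hd
        exact absurd (Nat.dvd_one.1 hd) hp.one_lt.ne'
      · intro p hp hd
        exact absurd (Nat.dvd_one.1 hd) hp.one_lt.ne'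
    · obtain ⟨p, hp, hpd⟩ := Nat.exists_prime_and_dvd h1
      obtain ⟨N', rfl⟩ := hpd
      have hN'pos : 0 < N' := Nat.pos_of_mul_pos_left hN
      have hlt : N' < p * N' := by nlinarith [hp.two_le]
      obtain ⟨M, m, hMm, hM, hm, h2, h3⟩ := ih N' hlt hN'pos
      by_cases hk : p ≤ k
      · refine ⟨p * M, m, by rw [hMm]; ring, Nat.mul_pos hp.pos hM, hm, ?_, h3⟩
        intro q hq hd
        rcases (Nat.Prime.dvd_mul hq).1 hd with h | h
        · rw [(Nat.prime_dvd_prime_iff_eq hq hp).1 h]
          exact hk
        · exact h2 q hq h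
      · refine ⟨M, p * m, by rw [hMm]; ring, hM, Nat.mul_pos hp.pos hm, h2, ?_⟩
        intro q hq hd
        rcases (Nat.Prime.dvd_mul hq).1 hd with h | h
        · rw [(Nat.prime_dvd_prime_iff_eq hq hp).1 h]
          omega
        · exact h3 q hq h

end Pool.Agent.H993R3.RA
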