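import Pool.Agent.H993R3.RA.Defs

set_option autoImplicit false

namespace Pool.Agent.H993R3.RA

open Finset Classical

theorem FIN1_norm {z : ℂ} (h : IsRU z) : ‖z‖ = 1 := by
  obtain ⟨N, hN, hz⟩ := h
  exact Complex.norm_eq_one_of_pow_eq_one hz hN.ne'

theorem FIN1_pm {d ω : ℂ} {r : ℚ} (hd : IsRU d) (hω : IsRU ω) (h : d = r • ω) :
    d = ω ∨ d = -ω := by
  have h1 := FIN1_norm hd
  have h2 := FIN1_norm hω
  rw [Rat.smul_def] at h
  rw [h, norm_mul, h2, mul_one] at h1
  have h3 : |(r : ℝ)| = 1 := by
    have h5 : ((r : ℝ) : ℂ) = (r : ℂ) := by push_cast; rfl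
    rw [← h5, Complex.norm_real, Real.norm_eq_abs] at h1
    exact h1
  rcases eq_or_eq_neg_of_abs_eq h3 with h4 | h4
  · left
    have : r = 1 := by exact_mod_cast h4
    rw [h, this]; simp
  · right
    have : r = -1 := by exact_mod_cast h4
    rw [h, this]; simp

theorem FIN1_ok (h : S_MAIN) : S_FIN1 := by
  obtain ⟨C, hC, hmain⟩ := h
  refine ⟨2 * C, by positivity, fun P hP => ?_⟩
  have key := hmain P 2 ((P ×ˢ P).filter (fun e => IsRU (e.2 - e.1))) hP ?_ ?_
  · refine key.trans (le_of_eq ?_)
    push_cast
    ring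
  · intro e he
    rw [Finset.mem_filter, Finset.mem_product] at he
    exact ⟨he.1.1, he.1.2, 1, e.2 - e.1, one_ne_zero, he.2, (one_smul _ _).symm⟩
  · intro ω hω p hp
    constructor
    · refine (Finset.card_le_card (t := {(p, p + ω), (p, p - ω)}) ?_).trans Finset.card_le_two
      intro e he
      rw [Finset.mem_filter, Finset.mem_filter] at he
      obtain ⟨⟨-, h1⟩, h2, r, h3⟩ := he
      rw [Finset.mem_insert, Finset.mem_singleton]
      rcases FIN1_pm h1 hω h3 with h4 | h4
      · left
        apply Prod.ext h2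
        show e.2 = p + ω
        rw [← h2, ← h4]; ring
      · right
        apply Prod.ext h2
        show e.2 = p - ω
        rw [← h2]
        linear_combination h4
    · refine (Finset.card_le_card (t := {(p - ω, p), (p + ω, p)}) ?_).trans Finset.card_le_two
      intro e he
      rw [Finset.mem_filter, Finset.mem_filter] at he
      obtain ⟨⟨-, h1⟩, h2, r, h3⟩ := he
      rw [Finset.mem_insert, Finset.mem_singleton]
      rcases FIN1_pm h1 hω h3 with h4 | h4
      · left
        refine Prod.ext ?_ h2
        show e.1 = p - ω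
        rw [← h2]
        linear_combination -h4
      · right
        refine Prod.ext ?_ h2
        show e.1 = p + ω
        rw [← h2]
        linear_combination -h4

end Pool.Agent.H993R3.RA
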