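import Pool.Agent.H993R3.RA.Defs

set_option autoImplicit false

namespace Pool.Agent.H993R3.RA

open Finset Classical

theorem FIN2_col (p q s ω : ℂ) (r r' : ℚ) (h1 : q - p = r • ω) (h2 : s - p = r' • ω) :
    Collinear ℝ ({p, q, s} : Set ℂ) := by
  rw [collinear_iff_of_mem (p₀ := p) (by simp)]
  refine ⟨ω, ?_⟩
  intro x hx
  simp only [Set.mem_insert_iff, Set.mem_singleton_iff] at hx
  rcases hx with rfl | rfl | rfl
  · exact ⟨0, by simp⟩
  · refine ⟨(r : ℝ), ?_⟩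
    rw [Rat.smul_def] at h1
    rw [vadd_eq_add, Complex.real_smul, Complex.ofReal_ratCast, ← h1]
    ring
  · refine ⟨(r' : ℝ), ?_⟩
    rw [Rat.smul_def] at h2
    rw [vadd_eq_add, Complex.real_smul, Complex.ofReal_ratCast, ← h2]
    ring

theorem FIN2_ok (h : S_MAIN) : S_FIN2 := by
  obtain ⟨C, hC, h⟩ := h
  refine ⟨C, hC, fun P hP hcol => ?_⟩
  have key := h P 1
    ((P ×ˢ P).filter (fun e => e.1 ≠ e.2 ∧ ∃ (r : ℚ) (ω : ℂ), IsRU ω ∧ e.2 - e.1 = r • ω)) hP
    ?_ ?_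
  · rw [Nat.cast_one, mul_one] at key
    exact key
  · intro e he
    rw [mem_filter, mem_product] at he
    obtain ⟨⟨h1, h2⟩, hne, r, ω, hω, hr⟩ := he
    refine ⟨h1, h2, r, ω, ?_, hω, hr⟩
    rintro rfl
    apply hne
    rw [zero_smul, sub_eq_zero] at hr
    exact hr.symm
  · intro ω hω p hp
    constructor
    · rw [Finset.card_le_one]
      intro e he e' he'
      simp only [mem_filter, mem_product] at he he'
      obtain ⟨⟨⟨a1, a2⟩, a3, -⟩, a4, r, a5⟩ := he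
      obtain ⟨⟨⟨b1, b2⟩, b3, -⟩, b4, r', b5⟩ := he'
      rw [a4] at a3 a5
      rw [b4] at b3 b5
      by_contra hne
      have hne2 : e.2 ≠ e'.2 := fun hh => hne (Prod.ext (a4.trans b4.symm) hh)
      exact hcol p hp e.2 a2 e'.2 b2 a3 b3 hne2 (FIN2_col p e.2 e'.2 ω r r' a5 b5)
    · rw [Finset.card_le_one]
      intro e he e' he'
      simp only [mem_filter, mem_product] at he he'
      obtain ⟨⟨⟨a1, a2⟩, a3, -⟩, a4, r, a5⟩ := he
      obtain ⟨⟨⟨b1, b2⟩, b3, -⟩, b4, r', b5⟩ := he'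
      rw [a4] at a3 a5
      rw [b4] at b3 b5
      by_contra hne
      have hne2 : e.1 ≠ e'.1 := fun hh => hne (Prod.ext hh (a4.trans b4.symm))
      refine hcol p hp e.1 a1 e'.1 b1 a3.symm b3.symm hne2
        (FIN2_col p e.1 e'.1 ω (-r) (-r') ?_ ?_)
      · rw [neg_smul, ← a5]
        ring
      · rw [neg_smul, ← b5]
        ring

end Pool.Agent.H993R3.RA
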