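import Pool.Agent.H993R3.RA.Defs

set_option autoImplicit false

/-! Task IND (helper616). -/

namespace Pool.Agent.H993R3.RA

open Finset Classical

namespace IND

lemma ineq0 (a b : ℝ) (ha : 1 ≤ a) (hab : a ≤ b) :
    a * Real.logb 2 a + b * Real.logb 2 b + a ≤ (a + b) * Real.logb 2 (a + b) := by
  have h1 : Real.logb 2 a + 1 ≤ Real.logb 2 (a + b) := by
    have h : Real.logb 2 a + 1 = Real.logb 2 (a * 2) := by
      rw [Real.logb_mul (by linarith) (by norm_num), Real.logb_self_eq_one (by norm_num)]
    rw [h]
    exact Real.logb_le_logb_of_le (by norm_num) (by linarith) (by linarith)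
  have h2 : Real.logb 2 b ≤ Real.logb 2 (a + b) :=
    Real.logb_le_logb_of_le (by norm_num) (by linarith) (by linarith)
  have h3 := mul_le_mul_of_nonneg_left h1 (by linarith : (0 : ℝ) ≤ a)
  have h4 := mul_le_mul_of_nonneg_left h2 (by linarith : (0 : ℝ) ≤ b)
  linarith

lemma ineq (a b : ℝ) (ha : 1 ≤ a) (hb : 1 ≤ b) :
    a * Real.logb 2 a + b * Real.logb 2 b + min a b ≤ (a + b) * Real.logb 2 (a + b) := by
  rcases le_total a b with h | h
  · rw [min_eq_left h]
    exact ineq0 a b ha h
  · rw [min_eq_right h]
    have := ineq0 b a hb h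
    rw [add_comm b a] at this
    linarith

lemma functional {V : Type} [AddCommGroup V] [Module ℚ V] (X : Set V)
    (hX : LinearIndependent ℚ (fun x : X => (x : V))) (x0 : V) (hx0 : x0 ∈ X) :
    ∃ φ : V →ₗ[ℚ] ℚ, φ x0 = 1 ∧ ∀ y ∈ X, y ≠ x0 → φ y = 0 := by
  have hX' : LinearIndepOn ℚ id X := hX
  have hsub : X ⊆ hX'.extend (Set.subset_univ X) := hX'.subset_extend _
  have hself : ∀ y (hy : y ∈ X), (Module.Basis.extend hX') ⟨y, hsub hy⟩ = y :=
    fun y hy => Module.Basis.extend_apply_self hX' _
  refine ⟨(Module.Basis.extend hX').coord ⟨x0, hsub hx0⟩, ?_, ?_⟩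
  · have h := (Module.Basis.extend hX').repr_self ⟨x0, hsub hx0⟩
    rw [hself x0 hx0] at h
    rw [Module.Basis.coord_apply, h, Finsupp.single_eq_same]
  · intro y hy hne
    have h := (Module.Basis.extend hX').repr_self ⟨y, hsub hy⟩
    rw [hself y hy] at h
    rw [Module.Basis.coord_apply, h, Finsupp.single_eq_of_ne]
    intro hh
    exact hne (congrArg Subtype.val hh).symm

lemma main {V : Type} [AddCommGroup V] [Module ℚ V] (X : Set V)
    (hX : LinearIndependent ℚ (fun x : X => (x : V))) (D : ℕ) :
    ∀ (n : ℕ) (P : Finset V) (G : Finset (V × V)), P.card = n →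
    Dir P G X → (∀ x ∈ X, Adm P D G x) →
    (G.card : ℝ) ≤ D * (P.card * Real.logb 2 P.card) := by
  intro n
  induction n using Nat.strong_induction_on with
  | _ n ih =>
    intro P G hn hDir hAdm
    rcases G.eq_empty_or_nonempty with hG | ⟨e0, he0⟩
    · subst hG
      rw [card_empty, Nat.cast_zero]
      have h0 : 0 ≤ Real.logb 2 (P.card : ℝ) := by
        rcases Nat.eq_zero_or_pos P.card with h | h
        · rw [h]; simp
        · exact Real.logb_nonneg (by norm_num) (by exact_mod_cast h)
      positivity
    · obtain ⟨h01, h02, x0, hx0, r0, hr0, her0⟩ := hDir e0 he0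
      obtain ⟨φ, hφ0, hφ⟩ := functional X hX x0 hx0
      set v : ℚ := φ e0.1 with hv
      set A : Finset V := P.filter (fun p => φ p ≤ v) with hA
      set B : Finset V := P.filter (fun p => v < φ p) with hB
      have hφx : ∀ x ∈ X, 0 ≤ φ x := by
        intro x hx
        by_cases h : x = x0
        · rw [h, hφ0]; norm_num
        · rw [hφ x hx h]
      have hval : ∀ e : V × V, ∀ (r : ℚ) (x : V), e.2 - e.1 = r • x → φ e.2 = φ e.1 + r * φ x := by
        intro e r x h
        have : φ (e.2 - e.1) = r * φ x := by rw [h, map_smul, smul_eq_mul]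
        rw [map_sub] at this
        linarith
      have hA1 : e0.1 ∈ A := mem_filter.2 ⟨h01, le_refl _⟩
      have hB1 : e0.2 ∈ B := by
        refine mem_filter.2 ⟨h02, ?_⟩
        rw [hval e0 r0 x0 her0, hφ0]
        linarith
      have hcard : A.card + B.card = P.card := by
        have h := card_filter_add_card_filter_not (s := P) (fun p => φ p ≤ v)
        simp only [not_le] at h
        exact h
      have hApos : 0 < A.card := card_pos.2 ⟨_, hA1⟩
      have hBpos : 0 < B.card := card_pos.2 ⟨_, hB1⟩
      set GA := G.filter (fun e => e.1 ∈ A ∧ e.2 ∈ A) with hGA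
      set GB := G.filter (fun e => e.1 ∈ B ∧ e.2 ∈ B) with hGB
      set GC := G.filter (fun e => e.1 ∈ A ∧ e.2 ∈ B) with hGC
      have hsub : G ⊆ GA ∪ GB ∪ GC := by
        intro e he
        obtain ⟨h1, h2, x, hx, r, hr, her⟩ := hDir e he
        have h3 := hval e r x her
        have h4 : 0 ≤ r * φ x := mul_nonneg hr.le (hφx x hx)
        by_cases hc1 : φ e.1 ≤ v
        · by_cases hc2 : φ e.2 ≤ v
          · exact mem_union_left _ (mem_union_left _ (mem_filter.2 ⟨he, mem_filter.2 ⟨h1, hc1⟩,
              mem_filter.2 ⟨h2, hc2⟩⟩))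
          · exact mem_union_right _ (mem_filter.2 ⟨he, mem_filter.2 ⟨h1, hc1⟩,
              mem_filter.2 ⟨h2, not_le.1 hc2⟩⟩)
        · have hc1' := not_le.1 hc1
          exact mem_union_left _ (mem_union_right _ (mem_filter.2 ⟨he, mem_filter.2 ⟨h1, hc1'⟩,
            mem_filter.2 ⟨h2, by linarith⟩⟩))
      have hle : G.card ≤ GA.card + GB.card + GC.card :=
        (card_le_card hsub).trans ((card_union_le _ _).trans
          (Nat.add_le_add_right (card_union_le _ _) _))
      -- the crossing edges
      have hdir0 : ∀ e ∈ GC, ∃ r : ℚ, e.2 - e.1 = r • x0 := by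
        intro e he
        obtain ⟨he, h1, h2⟩ := mem_filter.1 he
        obtain ⟨-, -, x, hx, r, hr, her⟩ := hDir e he
        by_cases h : x = x0
        · exact ⟨r, by rw [her, h]⟩
        · exfalso
          have h3 := hval e r x her
          rw [hφ x hx h, mul_zero, add_zero] at h3
          have h4 := (mem_filter.1 h1).2
          have h5 := (mem_filter.1 h2).2
          linarith
      have hCA : GC.card ≤ D * A.card := by
        have hs : GC ⊆ A.biUnion (fun p => G.filter
            (fun e => e.1 = p ∧ ∃ r : ℚ, e.2 - e.1 = r • x0)) := by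
          intro e he
          refine mem_biUnion.2 ⟨e.1, (mem_filter.1 he).2.1, mem_filter.2
            ⟨(mem_filter.1 he).1, rfl, hdir0 e he⟩⟩
        refine (card_le_card hs).trans (card_biUnion_le.trans ?_)
        refine (sum_le_card_nsmul A _ D fun p hp => ?_).trans ?_
        · exact (hAdm x0 hx0 p (mem_filter.1 hp).1).1
        · rw [smul_eq_mul, mul_comm]
      have hCB : GC.card ≤ D * B.card := by
        have hs : GC ⊆ B.biUnion (fun p => G.filter
            (fun e => e.2 = p ∧ ∃ r : ℚ, e.2 - e.1 = r • x0)) := by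
          intro e he
          refine mem_biUnion.2 ⟨e.2, (mem_filter.1 he).2.2, mem_filter.2
            ⟨(mem_filter.1 he).1, rfl, hdir0 e he⟩⟩
        refine (card_le_card hs).trans (card_biUnion_le.trans ?_)
        refine (sum_le_card_nsmul B _ D fun p hp => ?_).trans ?_
        · exact (hAdm x0 hx0 p (mem_filter.1 hp).1).2
        · rw [smul_eq_mul, mul_comm]
      -- induction
      have hAdm' : ∀ (Q : Finset V) (G' : Finset (V × V)), Q ⊆ P → G' ⊆ G →
          ∀ x ∈ X, Adm Q D G' x := by
        intro Q G' hQ hG' x hx p hp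
        obtain ⟨h1, h2⟩ := hAdm x hx p (hQ hp)
        exact ⟨(card_le_card (filter_subset_filter _ hG')).trans h1,
          (card_le_card (filter_subset_filter _ hG')).trans h2⟩
      have hDirA : Dir A GA X := by
        intro e he
        obtain ⟨he, h1, h2⟩ := mem_filter.1 he
        exact ⟨h1, h2, (hDir e he).2.2⟩
      have hDirB : Dir B GB X := by
        intro e he
        obtain ⟨he, h1, h2⟩ := mem_filter.1 he
        exact ⟨h1, h2, (hDir e he).2.2⟩
      have iA := ih A.card (by omega) A GA rfl hDirA
        (hAdm' A GA (filter_subset _ _) (filter_subset _ _))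
      have iB := ih B.card (by omega) B GB rfl hDirB
        (hAdm' B GB (filter_subset _ _) (filter_subset _ _))
      have hab := ineq (A.card : ℝ) (B.card : ℝ) (by exact_mod_cast hApos)
        (by exact_mod_cast hBpos)
      have hPc : (P.card : ℝ) = (A.card : ℝ) + B.card := by exact_mod_cast hcard.symm
      have hle' : (G.card : ℝ) ≤ GA.card + GB.card + GC.card := by exact_mod_cast hle
      have hCA' : (GC.card : ℝ) ≤ D * A.card := by exact_mod_cast hCA
      have hCB' : (GC.card : ℝ) ≤ D * B.card := by exact_mod_cast hCB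
      have hmin : (GC.card : ℝ) ≤ D * min (A.card : ℝ) B.card := by
        rcases le_total (A.card : ℝ) B.card with h | h
        · rw [min_eq_left h]; exact hCA'
        · rw [min_eq_right h]; exact hCB'
      rw [hPc]
      calc (G.card : ℝ) ≤ D * (A.card * Real.logb 2 A.card) + D * (B.card * Real.logb 2 B.card) +
            D * min (A.card : ℝ) B.card := by linarith
        _ = D * (A.card * Real.logb 2 A.card + B.card * Real.logb 2 B.card +
            min (A.card : ℝ) B.card) := by ring
        _ ≤ D * (((A.card : ℝ) + B.card) * Real.logb 2 ((A.card : ℝ) + B.card)) :=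
            mul_le_mul_of_nonneg_left hab (Nat.cast_nonneg _)

end IND

theorem IND_ok : S_IND := by
  intro V _ _ X hX D P G hDir hAdm
  exact IND.main X hX D P.card P G rfl hDir hAdm

end Pool.Agent.H993R3.RA
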