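import Pool.Agent.H993R3.RA.Defs

set_option autoImplicit false

namespace Pool.Agent.H993R3.RA

open Finset Classical

section
open Polynomial

theorem INT_gen (M : ℕ) (hM : 0 < M) (z : ℂ) (hz : IsPrimitiveRoot z M) (s : ℕ) (c : ℕ → ℚ)
    (h : ∑ j ∈ Finset.range (Nat.totient M), (c j : ℂ) * z ^ (s + j) = 0) :
    ∀ j < Nat.totient M, c j = 0 := by
  have hz0 : z ≠ 0 := hz.ne_zero hM.ne'
  set f : ℚ[X] := ∑ j ∈ Finset.range (Nat.totient M), C (c j) * X ^ j with hf
  have h1 : aeval z f = 0 := by
    have h2 : z ^ s * aeval z f = 0 := by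
      rw [hf, map_sum, Finset.mul_sum, ← h]
      refine Finset.sum_congr rfl fun j _ => ?_
      rw [map_mul, aeval_C, map_pow, aeval_X, pow_add]
      simp only [eq_ratCast]
      ring
    exact (mul_eq_zero.mp h2).resolve_left (pow_ne_zero s hz0)
  have hcoeff : ∀ j < Nat.totient M, f.coeff j = c j := by
    intro j hj
    rw [hf, finsetSum_coeff]
    simp only [coeff_C_mul_X_pow]
    rw [Finset.sum_ite_eq, if_pos (Finset.mem_range.mpr hj)]
  have hmin : minpoly ℚ z = cyclotomic M ℚ := (cyclotomic_eq_minpoly_rat hz hM).symm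
  have hf0 : f = 0 := by
    by_contra hne
    have h3 := minpoly.degree_le_of_ne_zero ℚ z hne h1
    rw [hmin, degree_cyclotomic] at h3
    have h4 : f.degree < (Nat.totient M : WithBot ℕ) := by
      rw [hf]
      refine (degree_sum_le _ _).trans_lt ?_
      rw [Finset.sup_lt_iff (WithBot.bot_lt_coe _)]
      intro j hj
      refine (degree_C_mul_X_pow_le _ _).trans_lt ?_
      exact_mod_cast Finset.mem_range.mp hj
    exact absurd h3 (not_le.mpr h4)
  intro j hj
  rw [← hcoeff j hj, hf0, coeff_zero]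

end

theorem INT_ok : S_INT := fun M hM z hz s c h => INT_gen M hM z hz s c h

end Pool.Agent.H993R3.RA
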