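import Pool.Agent.H993R3.RA.Defs

set_option autoImplicit false

namespace Pool.Agent.H993R3.RA

open Finset Classical

theorem MAIN_ok (h1 : S_BND) (h2 : S_CLS) (h3 : S_MER) (h4 : S_FAC) : S_MAIN := by
  obtain ⟨C0, hC0, hmer⟩ := h3
  refine ⟨4 * (3 * C0 + 2), by positivity, ?_⟩
  intro P D G hP hG hAdm
  have hch : ∀ e : ℂ × ℂ, ∃ (w : ℂ) (r : ℚ) (N : ℕ), e ∈ G →
      0 < N ∧ w ^ N = 1 ∧ 0 < r ∧ e.2 - e.1 = r • w := by
    intro e
    by_cases he : e ∈ G
    · obtain ⟨_, _, r, ω, hr, ⟨N, hN, hω⟩, heq⟩ := hG e he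
      rcases lt_or_gt_of_ne hr with h | h
      · refine ⟨-ω, -r, 2 * N, fun _ => ⟨by omega, ?_, by linarith, ?_⟩⟩
        · rw [pow_mul, neg_sq, ← pow_mul, mul_comm, pow_mul, hω, one_pow]
        · rw [heq, neg_smul, smul_neg, neg_neg]
      · exact ⟨ω, r, N, fun _ => ⟨hN, hω, h, heq⟩⟩
    · exact ⟨0, 0, 0, fun h => absurd h he⟩
  choose w r Ne hw using hch
  set N := ∏ e ∈ G, Ne e with hNdef
  have hNpos : 0 < N := Finset.prod_pos (fun e he => (hw e he).1)
  have hwN : ∀ e ∈ G, w e ^ N = 1 := by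
    intro e he
    obtain ⟨c, hc⟩ : Ne e ∣ N := Finset.dvd_prod_of_mem _ he
    rw [hc, pow_mul, (hw e he).2.1, one_pow]
  set n := P.card with hn
  set k := 4 * Nat.log 2 n + 10 with hk
  obtain ⟨M, m, hNMm, hM, hm, hMs, hmr⟩ := h4 k N hNpos
  obtain ⟨cl, hcl1, hcl2⟩ := h2 k M m hM hm hmr
  have hφ : 0 < Nat.totient M := Nat.totient_pos.2 hM
  have hcls : ∀ i, ((G.filter (fun e => cl (w e) = i)).card : ℝ) ≤
      2 * D * (n * Real.logb 2 n) := by
    intro i
    apply h1 {x : ℂ | x ^ (M * m) = 1 ∧ cl x = i} k D P _ (hcl2 i) le_rfl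
    · intro e he
      rw [Finset.mem_filter] at he
      refine ⟨(hG e he.1).1, (hG e he.1).2.1, w e, ⟨?_, he.2⟩, r e, (hw e he.1).2.2.1,
        (hw e he.1).2.2.2⟩
      rw [← hNMm]; exact hwN e he.1
    · intro x hx p hp
      obtain ⟨hx1, _⟩ := hx
      have hA := hAdm x ⟨M * m, Nat.mul_pos hM hm, hx1⟩ p hp
      refine ⟨le_trans (Finset.card_le_card ?_) hA.1, le_trans (Finset.card_le_card ?_) hA.2⟩
      · exact Finset.filter_subset_filter _ (Finset.filter_subset _ _)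
      · exact Finset.filter_subset_filter _ (Finset.filter_subset _ _)
  set K := ⌈(M : ℝ) / Nat.totient M⌉₊ with hK
  have hmaps : ∀ e ∈ G, cl (w e) ∈ Finset.range K := by
    intro e he
    rw [Finset.mem_range, hK, Nat.lt_ceil, lt_div_iff₀ (by exact_mod_cast hφ)]
    have := hcl1 (w e) (by rw [← hNMm]; exact hwN e he)
    exact_mod_cast this
  have hsum : (G.card : ℝ) ≤ K * (2 * D * (n * Real.logb 2 n)) := by
    rw [Finset.card_eq_sum_card_fiberwise hmaps]
    push_cast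
    calc _ ≤ ∑ i ∈ Finset.range K, 2 * (D : ℝ) * (n * Real.logb 2 n) :=
          Finset.sum_le_sum (fun i _ => hcls i)
      _ = _ := by rw [Finset.sum_const, Finset.card_range, nsmul_eq_mul]
  have hn2 : (2 : ℝ) ≤ n := by exact_mod_cast hP
  have hlogn : Real.log 2 ≤ Real.log n := Real.log_le_log (by norm_num) hn2
  have hl2 : (0.6931471803 : ℝ) < Real.log 2 := Real.log_two_gt_d9
  have hlogb : Real.logb 2 n = Real.log n / Real.log 2 := rfl
  set u := Real.log n with hu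
  have hK1 : (K : ℝ) ≤ C0 * Real.log k + 1 := by
    have a1 : (K : ℝ) < (M : ℝ) / Nat.totient M + 1 := Nat.ceil_lt_add_one (by positivity)
    have a2 : (M : ℝ) / Nat.totient M ≤ C0 * Real.log k := by
      rw [div_le_iff₀ (by exact_mod_cast hφ)]
      exact hmer k M (by omega) hM hMs
    linarith
  have b3 : Real.logb 2 n ≤ 3 / 2 * u := by
    rw [hlogb, div_le_iff₀ (by linarith)]
    nlinarith
  have hkr : (k : ℝ) ≤ 6 * (2 + u) := by
    have b1 : (Nat.log 2 n : ℝ) ≤ Real.logb 2 n := by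
      exact_mod_cast Real.natLog_le_logb n 2
    have b4 : (k : ℝ) = 4 * Nat.log 2 n + 10 := by rw [hk]; push_cast; ring
    rw [b4]; linarith
  have hv : 1 ≤ 2 * Real.log (2 + u) := by
    have : Real.log 2 ≤ Real.log (2 + u) := Real.log_le_log (by norm_num) (by linarith)
    linarith
  have hlk : Real.log k ≤ 3 * Real.log (2 + u) := by
    have c1 : (k : ℝ) ≤ (2 + u) ^ 3 := by
      have c0 : (6 : ℝ) ≤ (2 + u) ^ 2 := by nlinarith
      calc (k : ℝ) ≤ 6 * (2 + u) := hkr
        _ ≤ (2 + u) ^ 2 * (2 + u) := mul_le_mul_of_nonneg_right c0 (by linarith)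
        _ = _ := by ring
    have c2 : (0 : ℝ) < k := by
      have : 0 < k := by omega
      exact_mod_cast this
    calc Real.log k ≤ Real.log ((2 + u) ^ 3) := Real.log_le_log c2 c1
      _ = _ := by rw [Real.log_pow]; norm_num
  have hKv : (K : ℝ) ≤ (3 * C0 + 2) * Real.log (2 + u) := by nlinarith
  have hu0 : 0 ≤ u := by linarith
  have hlb0 : 0 ≤ Real.logb 2 n := by rw [hlogb]; exact div_nonneg hu0 (by linarith)
  have hlb : Real.logb 2 n ≤ 2 * u := by linarith
  calc (G.card : ℝ) ≤ K * (2 * D * (n * Real.logb 2 n)) := hsum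
    _ ≤ ((3 * C0 + 2) * Real.log (2 + u)) * (2 * D * (n * (2 * u))) := by
        apply mul_le_mul hKv _ (by positivity) (le_trans (by positivity) hKv)
        apply mul_le_mul_of_nonneg_left _ (by positivity)
        apply mul_le_mul_of_nonneg_left hlb (by positivity)
    _ = 4 * (3 * C0 + 2) * D * n * u * Real.log (2 + u) := by ring

end Pool.Agent.H993R3.RA
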