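import Pool.Agent.Erdos456.Mertens
import Pool.Agent.H993R3.RA.Defs

set_option autoImplicit false

namespace Pool.Agent.H993R3.RA

open Finset Classical

theorem MER_ok : S_MER := by
  obtain ⟨C1, h1⟩ := Pool.Agent.Erdos456.Mert.mertens_inv
  obtain ⟨C2, hC2, h2⟩ := Pool.Agent.Erdos456.Mert.sum_small_bound
  have hl2 : 0 < Real.log 2 := Real.log_pos (by norm_num)
  refine ⟨2 * Real.exp (C1 + C2 / Real.log 2), by positivity, ?_⟩
  intro k M hk hM hp
  obtain ⟨K, hK⟩ : ∃ K, K = max k 3 := ⟨_, rfl⟩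
  have hK3 : 3 ≤ K := by rw [hK]; exact le_max_right _ _
  have hkK : k ≤ K := by rw [hK]; exact le_max_left _ _
  have hlogK : Real.log K ≤ 2 * Real.log k := by
    have h3 : (K : ℝ) ≤ (k : ℝ) ^ 2 := by
      have h4 : K ≤ k ^ 2 := by
        rw [hK]
        exact max_le (by nlinarith) (by nlinarith)
      exact_mod_cast h4
    have hKpos : (0 : ℝ) < K := by exact_mod_cast (by omega : 0 < K)
    calc Real.log K ≤ Real.log ((k : ℝ) ^ 2) := Real.log_le_log hKpos h3
      _ = 2 * Real.log k := by rw [Real.log_pow]; norm_num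
  have hlogKpos : 0 < Real.log K := Real.log_pos (by exact_mod_cast (by omega : 1 < K))
  have hprod : (Nat.totient M : ℝ) = M * ∏ p ∈ M.primeFactors, (1 - (p : ℝ)⁻¹) := by
    have h3 := Nat.totient_eq_mul_prod_factors M
    have h := congrArg (fun x : ℚ => (x : ℝ)) h3
    push_cast at h
    exact h
  have hlow : Real.exp (-(∑ p ∈ M.primeFactors, 1 / ((p : ℝ) - 1))) ≤
      ∏ p ∈ M.primeFactors, (1 - (p : ℝ)⁻¹) := by
    rw [← Finset.sum_neg_distrib, Real.exp_sum]
    apply Finset.prod_le_prod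
    · intro p _; positivity
    · intro p hp
      have hp2 : 2 ≤ p := (Nat.prime_of_mem_primeFactors hp).two_le
      have hp2' : (2 : ℝ) ≤ p := by exact_mod_cast hp2
      have h3 : 1 + 1 / ((p : ℝ) - 1) ≤ Real.exp (1 / ((p : ℝ) - 1)) := by
        have := Real.add_one_le_exp (1 / ((p : ℝ) - 1)); linarith
      have hp0 : (0 : ℝ) < (p : ℝ) - 1 := by linarith
      have h4 : 1 - (p : ℝ)⁻¹ = (1 + 1 / ((p : ℝ) - 1))⁻¹ := by
        have h5 : (p : ℝ) - 1 ≠ 0 := hp0.ne'
        have h6 : (p : ℝ) ≠ 0 := by linarith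
        have h7 : 1 + 1 / ((p : ℝ) - 1) = p / (p - 1) := by
          field_simp
          ring
        rw [h7, inv_div]
        field_simp
      rw [h4, Real.exp_neg]
      exact inv_anti₀ (by positivity) h3
  have hsub : M.primeFactors ⊆ (Finset.Icc 1 K).filter Nat.Prime := by
    intro p hpM
    rw [mem_filter, mem_Icc]
    have hpp := Nat.prime_of_mem_primeFactors hpM
    exact ⟨⟨hpp.one_le, (hp p hpp (Nat.dvd_of_mem_primeFactors hpM)).trans hkK⟩, hpp⟩
  have hsum : ∑ p ∈ M.primeFactors, 1 / ((p : ℝ) - 1) ≤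
      Real.log (Real.log K) + (C1 + C2 / Real.log 2) := by
    have e1 : ∑ p ∈ M.primeFactors, 1 / ((p : ℝ) - 1) ≤
        ∑ p ∈ (Finset.Icc 1 K).filter Nat.Prime, 1 / ((p : ℝ) - 1) := by
      apply sum_le_sum_of_subset_of_nonneg hsub
      intro p hp _
      have h3 : (2 : ℝ) ≤ p := by exact_mod_cast (mem_filter.1 hp).2.two_le
      have h4 : 0 < (p : ℝ) - 1 := by linarith
      positivity
    have e2 : ∑ p ∈ (Finset.Icc 1 K).filter Nat.Prime, 1 / ((p : ℝ) - 1) ≤
        ∑ p ∈ (Finset.Icc 1 K).filter Nat.Prime,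
          ((1 : ℝ) / p + (Real.log p / (p * (p - 1))) / Real.log 2) := by
      apply sum_le_sum
      intro p hp
      have hp2 : (2 : ℝ) ≤ p := by exact_mod_cast (mem_filter.1 hp).2.two_le
      have e : 1 / ((p : ℝ) - 1) = 1 / p + 1 / (p * (p - 1)) := by
        have h1 : (p : ℝ) - 1 ≠ 0 := by linarith
        have h2 : (p : ℝ) ≠ 0 := by linarith
        field_simp
        ring
      rw [e]
      have hlp : Real.log 2 ≤ Real.log p := Real.log_le_log (by norm_num) hp2
      have hpos : 0 < (p : ℝ) * (p - 1) := mul_pos (by linarith) (by linarith)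
      have h5 : 1 / ((p : ℝ) * (p - 1)) ≤ (Real.log p / (p * (p - 1))) / Real.log 2 := by
        rw [le_div_iff₀ hl2, div_mul_eq_mul_div, one_mul]
        exact div_le_div_of_nonneg_right hlp hpos.le
      linarith
    rw [sum_add_distrib, ← sum_div] at e2
    have e3 := (abs_le.1 (h1 K hK3)).2
    have e4 : (∑ p ∈ (Finset.Icc 1 K).filter Nat.Prime, Real.log p / ((p : ℝ) * (p - 1))) /
        Real.log 2 ≤ C2 / Real.log 2 := div_le_div_of_nonneg_right (h2 K) hl2.le
    linarith
  have hfin : Real.exp (-(Real.log (Real.log K) + (C1 + C2 / Real.log 2))) ≤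
      ∏ p ∈ M.primeFactors, (1 - (p : ℝ)⁻¹) :=
    (Real.exp_le_exp.2 (neg_le_neg hsum)).trans hlow
  rw [neg_add, Real.exp_add, Real.exp_neg, Real.exp_log hlogKpos, Real.exp_neg] at hfin
  obtain ⟨E, hE⟩ : ∃ E, E = Real.exp (C1 + C2 / Real.log 2) := ⟨_, rfl⟩
  have hEpos : 0 < E := by rw [hE]; positivity
  rw [← hE] at hfin ⊢
  have hMpos : (0 : ℝ) < M := by exact_mod_cast hM
  have hfin2 : (M : ℝ) * ((Real.log K)⁻¹ * E⁻¹) ≤ Nat.totient M := by
    rw [hprod]
    exact mul_le_mul_of_nonneg_left hfin hMpos.le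
  have hφ : (0 : ℝ) ≤ Nat.totient M := Nat.cast_nonneg _
  calc (M : ℝ) = (M * ((Real.log K)⁻¹ * E⁻¹)) * (Real.log K * E) := by
        field_simp
    _ ≤ Nat.totient M * (Real.log K * E) := by
        apply mul_le_mul_of_nonneg_right hfin2
        positivity
    _ ≤ Nat.totient M * ((2 * Real.log k) * E) := by
        apply mul_le_mul_of_nonneg_left _ hφ
        exact mul_le_mul_of_nonneg_right hlogK hEpos.le
    _ = 2 * E * Real.log k * Nat.totient M := by ring

end Pool.Agent.H993R3.RA
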