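import Mathlib
import Pool.Agent.H993R3.RA.Defs

set_option autoImplicit false

/-! Task SPL: splitting a short relation at one prime (helper66). -/

namespace Pool.Agent.H993R3.RA

namespace SPLaux

open Finset Polynomial

theorem vdm (T : Finset ℂ) (u : ℂ → ℂ) (n : ℕ) (hT : T.card ≤ n)
    (h : ∀ j < n, ∑ t ∈ T, u t * t ^ j = 0) : ∀ t ∈ T, u t = 0 := by
  classical
  intro t0 ht0
  set P : ℂ[X] := ∏ t ∈ T.erase t0, (X - C t) with hP
  have hdeg : P.natDegree < n := by
    have h1 : P.natDegree = (T.erase t0).card := by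
      rw [hP, natDegree_prod _ _ (fun t _ => X_sub_C_ne_zero t)]
      simp
    rw [h1, card_erase_of_mem ht0]
    have h2 : 0 < T.card := card_pos.2 ⟨t0, ht0⟩
    omega
  have h0 : ∑ t ∈ T, u t * P.eval t = 0 := by
    have h1 : ∀ t, P.eval t = ∑ j ∈ range n, P.coeff j * t ^ j := fun t =>
      eval_eq_sum_range' hdeg t
    calc ∑ t ∈ T, u t * P.eval t = ∑ t ∈ T, ∑ j ∈ range n, P.coeff j * (u t * t ^ j) := by
          refine sum_congr rfl fun t _ => ?_
          rw [h1, mul_sum]
          refine sum_congr rfl fun j _ => ?_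
          ring
      _ = ∑ j ∈ range n, P.coeff j * ∑ t ∈ T, u t * t ^ j := by
          rw [sum_comm]
          refine sum_congr rfl fun j _ => ?_
          rw [mul_sum]
      _ = 0 := by
          refine sum_eq_zero fun j hj => ?_
          rw [h j (mem_range.1 hj), mul_zero]
  rw [sum_eq_single t0] at h0
  · refine (mul_eq_zero.1 h0).resolve_right ?_
    rw [hP, eval_prod]
    refine prod_ne_zero_iff.2 ?_
    intro t ht
    rw [eval_sub, eval_X, eval_C]
    exact sub_ne_zero.2 (ne_of_mem_erase ht).symm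
  · intro t ht htt
    have : P.eval t = 0 := by
      rw [hP, eval_prod]
      refine prod_eq_zero (mem_erase.2 ⟨htt, ht⟩) ?_
      rw [eval_sub, eval_X, eval_C, sub_self]
    rw [this, mul_zero]
  · intro h
    exact absurd ht0 h

theorem good_shift (N p : ℕ) (hp : p.Prime) (q : ℕ) (hN : N = p * q) :
    ∃ s : ℕ, ∀ j < p - 1, Nat.Coprime (1 + (s + j) * q) N := by
  have key : ∀ b : ℕ, ¬ p ∣ 1 + b * q → Nat.Coprime (1 + b * q) N := by
    intro b hb
    rw [hN]
    refine Nat.Coprime.mul_right ?_ ?_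
    · exact ((Nat.Prime.coprime_iff_not_dvd hp).2 hb).symm
    · rw [Nat.coprime_add_mul_right_left]
      exact Nat.coprime_one_left q
  by_cases h : ∃ b, p ∣ 1 + b * q
  · obtain ⟨b, hb⟩ := h
    have hpq : ¬ p ∣ q := by
      intro h1
      have h2 : p ∣ 1 := (Nat.dvd_add_left (h1.mul_left b)).1 hb
      exact hp.one_lt.ne' (Nat.dvd_one.1 h2)
    refine ⟨b + 1, fun j hj => key _ ?_⟩
    intro h1
    have h2 : 1 + (b + 1 + j) * q = (1 + b * q) + (j + 1) * q := by ring
    rw [h2] at h1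
    have h3 : p ∣ (j + 1) * q := (Nat.dvd_add_right hb).1 h1
    rcases hp.dvd_mul.1 h3 with h4 | h4
    · have := Nat.le_of_dvd (by omega) h4
      omega
    · exact hpq h4
  · exact ⟨0, fun j _ => key _ (fun h1 => h ⟨_, h1⟩)⟩

open Classical in
theorem core (hCONJ : ∀ (N : ℕ) (X : Finset ℂ) (c : ℂ → ℚ) (a : ℕ), 0 < N →
      (∀ x ∈ X, x ^ N = 1) → ∑ x ∈ X, (c x : ℂ) * x = 0 → Nat.Coprime a N →
      ∑ x ∈ X, (c x : ℂ) * x ^ a = 0)
    (N p : ℕ) (hp : p.Prime) (hpN : p ∣ N) (hN : 0 < N) (X : Finset ℂ) (c : ℂ → ℚ)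
    (hX : ∀ x ∈ X, x ^ N = 1) (hsum : ∑ x ∈ X, (c x : ℂ) * x = 0) (hcard : X.card < p) (t : ℂ) :
    ∑ x ∈ X.filter (fun x => x ^ (N / p) = t), (c x : ℂ) * x = 0 := by
  set q := N / p with hq
  have hNq : N = p * q := (Nat.mul_div_cancel' hpN).symm
  obtain ⟨s, hs⟩ := good_shift N p hp q hNq
  set T : Finset ℂ := X.image (fun x => x ^ q) with hT
  have hTc : T.card ≤ p - 1 := by
    have : T.card ≤ X.card := card_image_le
    omega
  set u : ℂ → ℂ := fun t => (∑ x ∈ X.filter (fun x => x ^ q = t), (c x : ℂ) * x) * t ^ s with hu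
  have hmain : ∀ j < p - 1, ∑ t ∈ T, u t * t ^ j = 0 := by
    intro j hj
    have h1 := hCONJ N X c _ hN hX hsum (hs j hj)
    rw [← h1, ← sum_fiberwise_of_maps_to (t := T) (g := fun x => x ^ q)
      (fun x hx => mem_image_of_mem _ hx)]
    refine sum_congr rfl fun t _ => ?_
    rw [hu]
    dsimp only
    rw [sum_mul, sum_mul]
    refine sum_congr rfl fun x hx => ?_
    have hxt := (mem_filter.1 hx).2
    rw [pow_add, pow_one, mul_comm (s + j) q, pow_mul, hxt, pow_add]
    ring
  by_cases ht : t ∈ T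
  · have h1 := vdm T u (p - 1) hTc hmain t ht
    rw [hu] at h1
    dsimp only at h1
    refine (mul_eq_zero.1 h1).resolve_right ?_
    obtain ⟨x, hx, rfl⟩ := mem_image.1 ht
    have hx0 : x ≠ 0 := by
      rintro rfl
      have := hX 0 hx
      rw [zero_pow hN.ne'] at this
      exact zero_ne_one this
    exact pow_ne_zero _ (pow_ne_zero _ hx0)
  · have : X.filter (fun x => x ^ q = t) = ∅ := by
      rw [filter_eq_empty_iff]
      intro x hx h
      exact ht (mem_image.2 ⟨x, hx, h⟩)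
    rw [this, sum_empty]

end SPLaux

open Finset Classical in
theorem SPL_ok (h : S_CONJ) : S_SPL := by
  intro N p hN hp hpN X c hcard hX hsum t
  exact SPLaux.core (fun N X c a hN hX hsum ha => h N hN X c hX hsum a ha) N p hp hpN hN X c hX
    hsum hcard t

end Pool.Agent.H993R3.RA
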